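import Mathlib

/-!
# Bounds for the moments of zeta of high order from a pointwise bound
-/

set_option autoImplicit false

open Complex MeasureTheory

namespace Pool.Agent.N329.ZM

/-- `M_k(T) = ∫_0^T |ζ(1/2 + it)|^{2k} dt` -/
noncomputable def M (k T : ℝ) : ℝ := ∫ t in (0:ℝ)..T, ‖riemannZeta (1 / 2 + t * I)‖ ^ (2 * k)

/-- the inequality `M_k(T) ≤ T (log T)^{c k²}` for all large `k` and `1000 ≤ T ≤ k^{Ak}` -/
def Range (A c : ℝ) : Prop :=
  ∃ k₀ : ℝ, ∀ k : ℝ, k₀ ≤ k → ∀ T : ℝ, 1000 ≤ T → T ≤ k ^ (A * k) →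
    M k T ≤ T * Real.log T ^ (c * k ^ 2)

/-- `ζ(1/2 + it) = O(t^η)` for every `η > θ` -/
def Expo (θ : ℝ) : Prop :=
  ∀ η : ℝ, θ < η → ∃ C : ℝ, ∀ t : ℝ, 1 ≤ t → ‖riemannZeta (1 / 2 + t * I)‖ ≤ C * t ^ η

lemma pt_ne (t : ℝ) : (1 / 2 + t * I : ℂ) ≠ 1 := by
  intro h
  have := congrArg Complex.re h
  norm_num at this

lemma Z_cont : Continuous fun t : ℝ => ‖riemannZeta (1 / 2 + t * I)‖ := by
  refine Continuous.norm (continuous_iff_continuousAt.2 fun t => ?_)
  have h1 : ContinuousAt riemannZeta (1 / 2 + t * I) :=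
    (differentiableAt_riemannZeta (pt_ne t)).continuousAt
  have h2 : Continuous fun t : ℝ => (1 / 2 + t * I : ℂ) := by fun_prop
  exact ContinuousAt.comp (f := fun t : ℝ => (1 / 2 + t * I : ℂ)) h1 h2.continuousAt

lemma log_one_thousand : Real.exp 1 ≤ Real.log 1000 := by
  have h1 : Real.exp 1 < 2.7182818286 := Real.exp_one_lt_d9
  have h2 : Real.log 1000 = Real.log 10 * 3 := by
    rw [show (1000 : ℝ) = 10 ^ (3 : ℕ) by norm_num, Real.log_pow]
    push_cast
    ring
  have h3 : (2 : ℝ) ≤ Real.log 10 := by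
    rw [Real.le_log_iff_exp_le (by norm_num)]
    have h4 : Real.exp 2 = Real.exp 1 * Real.exp 1 := by rw [← Real.exp_add]; norm_num
    rw [h4]
    nlinarith [Real.exp_pos 1]
  rw [h2]
  linarith

/-- `L ≤ A k log L` if `L ≤ A k log k`, for all large `k` -/
lemma L_le (A : ℝ) (hA : 0 < A) : ∃ k₁ : ℝ, ∀ k : ℝ, k₁ ≤ k → ∀ L : ℝ, Real.exp 1 ≤ L →
    L ≤ A * k * Real.log k → L ≤ A * k * Real.log L := by
  refine ⟨max (Real.exp 1) (Real.exp (1 / A)), fun k hk L hL hLk => ?_⟩
  have hke : Real.exp 1 ≤ k := (le_max_left _ _).trans hk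
  have hk0 : 0 < k := (Real.exp_pos 1).trans_le hke
  have hL0 : 0 < L := (Real.exp_pos 1).trans_le hL
  rcases le_total k L with h | h
  · refine hLk.trans ?_
    have := Real.log_le_log hk0 h
    have h2 : 0 ≤ A * k := by positivity
    exact mul_le_mul_of_nonneg_left this h2
  · have h1 : Real.log k / k ≤ Real.log L / L :=
      Real.log_div_self_antitoneOn hL hke h
    have h2 : 1 / A ≤ Real.log k := by
      rw [Real.le_log_iff_exp_le hk0]
      exact (le_max_right _ _).trans hk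
    have h3 : 1 ≤ A * Real.log k := by
      rw [div_le_iff₀ hA] at h2
      linarith
    have h4 : L * Real.log k ≤ k * Real.log L := by
      rw [div_le_div_iff₀ hk0 hL0] at h1
      linarith
    calc L ≤ L * (A * Real.log k) := le_mul_of_one_le_right hL0.le h3
      _ = A * (L * Real.log k) := by ring
      _ ≤ A * (k * Real.log L) := mul_le_mul_of_nonneg_left h4 hA.le
      _ = A * k * Real.log L := by ring

/-- the pointwise bound gives the bounds for the moments -/
theorem up {A c η C : ℝ} (hA : 0 < A) (hη : 0 ≤ η) (hAη : 2 * η * A < c) (hC : 1 ≤ C)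
    (h : ∀ T : ℝ, 1000 ≤ T → ∀ t : ℝ, 0 ≤ t → t ≤ T → ‖riemannZeta (1 / 2 + t * I)‖ ≤ C * T ^ η) :
    Range A c := by
  obtain ⟨k₁, hk₁⟩ := L_le A hA
  refine ⟨max (max k₁ 1) (2 * Real.log C / (c - 2 * η * A)), fun k hk T hT hTk => ?_⟩
  have hkk₁ : k₁ ≤ k := ((le_max_left _ _).trans (le_max_left _ _)).trans hk
  have hk1 : 1 ≤ k := ((le_max_right _ _).trans (le_max_left _ _)).trans hk
  have hkC : 2 * Real.log C / (c - 2 * η * A) ≤ k := (le_max_right _ _).trans hk
  have hk0 : 0 < k := by linarith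
  have hT0 : 0 < T := by linarith
  have hLe : Real.exp 1 ≤ Real.log T :=
    log_one_thousand.trans (Real.log_le_log (by norm_num) hT)
  have hL0 : 0 < Real.log T := (Real.exp_pos 1).trans_le hLe
  have hlogL : 1 ≤ Real.log (Real.log T) := by
    rw [Real.le_log_iff_exp_le hL0]; exact hLe
  have hLk : Real.log T ≤ A * k * Real.log k := by
    have := Real.log_le_log hT0 hTk
    rwa [Real.log_rpow hk0] at this
  have hkey := hk₁ k hkk₁ _ hLe hLk
  have hd : 0 < c - 2 * η * A := by linarith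
  -- the exponents
  have h1 : 2 * k * (Real.log C + η * Real.log T) ≤ c * k ^ 2 * Real.log (Real.log T) := by
    have e1 : 2 * Real.log C ≤ (c - 2 * η * A) * k := by
      rw [div_le_iff₀ hd] at hkC
      linarith
    have e2 : (c - 2 * η * A) * k ≤ (c - 2 * η * A) * k * Real.log (Real.log T) :=
      le_mul_of_one_le_right (by positivity) hlogL
    have e3 : 2 * η * Real.log T ≤ 2 * η * (A * k * Real.log (Real.log T)) :=
      mul_le_mul_of_nonneg_left hkey (by positivity)
    have e4 : 2 * Real.log C + 2 * η * Real.log T ≤ c * k * Real.log (Real.log T) := by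
      calc 2 * Real.log C + 2 * η * Real.log T
          ≤ (c - 2 * η * A) * k * Real.log (Real.log T) +
            2 * η * (A * k * Real.log (Real.log T)) := by linarith
        _ = c * k * Real.log (Real.log T) := by ring
    calc 2 * k * (Real.log C + η * Real.log T)
        = k * (2 * Real.log C + 2 * η * Real.log T) := by ring
      _ ≤ k * (c * k * Real.log (Real.log T)) := mul_le_mul_of_nonneg_left e4 hk0.le
      _ = c * k ^ 2 * Real.log (Real.log T) := by ring
  have h2 : (C * T ^ η) ^ (2 * k) ≤ Real.log T ^ (c * k ^ 2) := by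
    have hC0 : 0 < C := by linarith
    have hp : 0 < C * T ^ η := by positivity
    rw [Real.rpow_def_of_pos hp, Real.rpow_def_of_pos hL0, Real.exp_le_exp,
      Real.log_mul hC0.ne' (by positivity), Real.log_rpow hT0]
    linarith
  have h3 : ‖M k T‖ ≤ (C * T ^ η) ^ (2 * k) * |T - 0| := by
    unfold M
    apply intervalIntegral.norm_integral_le_of_norm_le_const
    intro t ht
    rw [Set.uIoc_of_le hT0.le] at ht
    have e1 : (0 : ℝ) ≤ ‖riemannZeta (1 / 2 + t * I)‖ ^ (2 * k) := by positivity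
    rw [Real.norm_of_nonneg e1]
    exact Real.rpow_le_rpow (norm_nonneg _) (h T hT t ht.1.le ht.2) (by positivity)
  rw [sub_zero, abs_of_pos hT0] at h3
  calc M k T ≤ ‖M k T‖ := Real.le_norm_self _
    _ ≤ (C * T ^ η) ^ (2 * k) * T := h3
    _ ≤ Real.log T ^ (c * k ^ 2) * T := mul_le_mul_of_nonneg_right h2 hT0.le
    _ = T * Real.log T ^ (c * k ^ 2) := mul_comm _ _

end Pool.Agent.N329.ZM
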