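import Mathlib
import Pool.Agent.H388LH.ZG
import Pool.Agent.N329.ZM.Up

/-!
# A pointwise bound from the moments of zeta of high order
-/

set_option autoImplicit false

open Complex MeasureTheory Filter Topology

namespace Pool.Agent.N329.ZM

/-- crude bound for the derivative -/
lemma deriv_bd (t u : ℝ) (ht : 2 ≤ t) (h1 : t ≤ u) (h2 : u ≤ t + 1) :
    ‖deriv riemannZeta (1 / 2 + u * I)‖ ≤ 144 * t := by
  have h := Complex.norm_deriv_le_of_forall_mem_sphere_norm_le (c := (1 / 2 + u * I : ℂ))
    (R := 1 / 4) (C := 36 * t) (f := riemannZeta) (by norm_num) ?_ ?_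
  · refine h.trans (le_of_eq ?_)
    ring
  · apply DifferentiableOn.diffContOnCl
    intro z hz
    apply DifferentiableAt.differentiableWithinAt
    apply differentiableAt_riemannZeta
    rintro rfl
    rw [closure_ball _ (by norm_num), Metric.mem_closedBall, dist_eq_norm] at hz
    have := Complex.abs_re_le_norm (1 - (1 / 2 + u * I : ℂ))
    norm_num at this
    linarith
  · intro z hz
    rw [mem_sphere_iff_norm] at hz
    have hr := Complex.abs_re_le_norm (z - (1 / 2 + u * I : ℂ))
    have hi := Complex.abs_im_le_norm (z - (1 / 2 + u * I : ℂ))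
    rw [hz, abs_le] at hr hi
    simp at hr hi
    have hre : 1 / 4 ≤ z.re := by norm_num at hr; linarith [hr.1]
    have hre' : z.re ≤ 3 / 4 := by norm_num at hr; linarith [hr.2]
    have him : |z.im| ≤ u + 1 / 4 := by
      rw [abs_le]; norm_num at hi; constructor <;> linarith [hi.1, hi.2]
    refine (Pool.Agent.H388LH.zeta_growth' hre hre').trans ?_
    linarith

/-- a large value of zeta is large on an interval -/
lemma near (t u : ℝ) (ht : 2 ≤ t) (h1 : t ≤ u) (h2 : u ≤ t + 1 / (288 * t))
    (hV : 1 ≤ ‖riemannZeta (1 / 2 + t * I)‖) :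
    ‖riemannZeta (1 / 2 + t * I)‖ / 2 ≤ ‖riemannZeta (1 / 2 + u * I)‖ := by
  have ht1 : 1 / (288 * t) ≤ 1 := by
    rw [div_le_one (by positivity)]; linarith
  have hder : ∀ x : ℝ, HasDerivAt (fun x : ℝ => riemannZeta (1 / 2 + x * I))
      (deriv riemannZeta (1 / 2 + x * I) * I) x := by
    intro x
    have e1 : HasDerivAt (fun x : ℝ => (1 / 2 + x * I : ℂ)) I x := by
      have e2 := ((hasDerivAt_id (x : ℂ)).comp_ofReal.mul_const I).const_add (1 / 2 : ℂ)
      simpa using e2
    have e3 := (differentiableAt_riemannZeta (pt_ne x)).hasDerivAt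
    have e4 := HasDerivAt.scomp x e3 e1
    rw [smul_eq_mul, mul_comm] at e4
    exact e4
  have h := norm_image_sub_le_of_norm_deriv_le_segment' (a := t) (b := u)
    (f := fun x : ℝ => riemannZeta (1 / 2 + x * I)) (C := 144 * t)
    (fun x _ => (hder x).hasDerivWithinAt) (fun x hx => by
      rw [norm_mul, Complex.norm_I, mul_one]
      exact deriv_bd t x ht hx.1 (by linarith [hx.2])) u (Set.right_mem_Icc.mpr h1)
  have h3 : 144 * t * (u - t) ≤ 1 / 2 := by
    calc 144 * t * (u - t) ≤ 144 * t * (1 / (288 * t)) := by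
          apply mul_le_mul_of_nonneg_left (by linarith) (by positivity)
      _ = 1 / 2 := by field_simp; norm_num
  have h4 : ‖riemannZeta (1 / 2 + t * I)‖ - ‖riemannZeta (1 / 2 + u * I)‖ ≤
      ‖riemannZeta (1 / 2 + u * I) - riemannZeta (1 / 2 + t * I)‖ := by
    rw [norm_sub_rev]
    exact norm_sub_norm_le _ _
  linarith

/-- a large value gives a large moment -/
lemma low (t k : ℝ) (ht : 2 ≤ t) (hk : 0 ≤ k) (hV : 1 ≤ ‖riemannZeta (1 / 2 + t * I)‖) :
    (‖riemannZeta (1 / 2 + t * I)‖ / 2) ^ (2 * k) ≤ 288 * t * M k (2 * t) := by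
  have ht0 : 0 < t := by linarith
  have hd1 : 1 / (288 * t) ≤ 1 := by
    rw [div_le_one (by positivity)]; linarith
  have hd0 : 0 < 1 / (288 * t) := by positivity
  have hcont : Continuous fun t : ℝ => ‖riemannZeta (1 / 2 + t * I)‖ ^ (2 * k) :=
    Z_cont.rpow_const (fun x => Or.inr (by positivity))
  have h1 : ∫ x in t..(t + 1 / (288 * t)), ‖riemannZeta (1 / 2 + x * I)‖ ^ (2 * k) ≤
      M k (2 * t) := by
    unfold M
    apply intervalIntegral.integral_mono_interval ht0.le (by linarith) (by linarith)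
    · exact Filter.Eventually.of_forall fun x => by positivity
    · exact hcont.intervalIntegrable _ _
  have h2 : ∫ x in t..(t + 1 / (288 * t)), (‖riemannZeta (1 / 2 + t * I)‖ / 2) ^ (2 * k) ≤
      ∫ x in t..(t + 1 / (288 * t)), ‖riemannZeta (1 / 2 + x * I)‖ ^ (2 * k) := by
    apply intervalIntegral.integral_mono_on (by linarith) intervalIntegrable_const
      (hcont.intervalIntegrable _ _)
    intro x hx
    exact Real.rpow_le_rpow (by positivity) (near t x ht hx.1 hx.2 hV) (by positivity)
  rw [intervalIntegral.integral_const, add_sub_cancel_left, smul_eq_mul] at h2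
  have h3 := h2.trans h1
  rw [one_div_mul_eq_div, div_le_iff₀ (by positivity)] at h3
  linarith

end Pool.Agent.N329.ZM
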