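import Mathlib
import Pool.Agent.N329.ZM.Down

/-!
# The moments of high order and the Lindelöf exponent
-/

set_option autoImplicit false

open Complex MeasureTheory Filter Topology

namespace Pool.Agent.N329.ZM

/-- the choice `k = b L / log L` -/
lemma choice (A b δ k₀ : ℝ) (hA : 0 < A) (hb : 0 < b) (hAb : 1 < A * b) (hδ : 0 < δ) :
    ∀ᶠ L : ℝ in atTop, 7 ≤ L ∧ 1 ≤ Real.log L ∧ k₀ ≤ b * L / Real.log L ∧
      0 < b * L / Real.log L ∧
      L ≤ A * (b * L / Real.log L) * Real.log (b * L / Real.log L) ∧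
      Real.log L ≤ δ * L := by
  obtain ⟨ρ, hρ⟩ : ∃ ρ : ℝ, ρ = 1 / (A * b) := ⟨_, rfl⟩
  have hAb0 : 0 < A * b := by positivity
  have hρ0 : 0 < ρ := by rw [hρ]; positivity
  have hρ1 : ρ < 1 := by rw [hρ, div_lt_one hAb0]; exact hAb
  have E1 := (isLittleO_log_rpow_atTop (r := 1) one_pos).bound
    (c := b / (|k₀| + 1)) (by positivity)
  have E2 := (isLittleO_log_rpow_atTop (r := 1 - ρ) (by linarith)).bound (c := b) hb
  have E3 := (isLittleO_log_rpow_atTop (r := 1) one_pos).bound (c := δ) hδ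
  filter_upwards [E1, E2, E3, eventually_ge_atTop (7 : ℝ)] with L h1 h2 h3 h7
  have hL0 : 0 < L := by linarith
  have hlog : 1 ≤ Real.log L := by
    rw [Real.le_log_iff_exp_le hL0]
    have : Real.exp 1 < 2.7182818286 := Real.exp_one_lt_d9
    linarith
  have hlog0 : 0 < Real.log L := by linarith
  rw [Real.norm_of_nonneg hlog0.le, Real.rpow_one, Real.norm_of_nonneg hL0.le] at h1 h3
  rw [Real.norm_of_nonneg hlog0.le, Real.norm_of_nonneg (by positivity)] at h2
  have hk0 : 0 < b * L / Real.log L := by positivity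
  refine ⟨h7, hlog, ?_, hk0, ?_, h3⟩
  · rw [le_div_iff₀ hlog0]
    calc k₀ * Real.log L ≤ (|k₀| + 1) * Real.log L := by
          apply mul_le_mul_of_nonneg_right _ hlog0.le
          linarith [le_abs_self k₀]
      _ ≤ (|k₀| + 1) * (b / (|k₀| + 1) * L) := mul_le_mul_of_nonneg_left h1 (by positivity)
      _ = b * L := by field_simp
  · have e1 : L ^ ρ ≤ b * L / Real.log L := by
      rw [le_div_iff₀ hlog0]
      calc L ^ ρ * Real.log L ≤ L ^ ρ * (b * L ^ (1 - ρ)) :=
            mul_le_mul_of_nonneg_left h2 (by positivity)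
        _ = b * (L ^ ρ * L ^ (1 - ρ)) := by ring
        _ = b * L := by
            rw [← Real.rpow_add hL0, add_sub_cancel, Real.rpow_one]
    have e2 : ρ * Real.log L ≤ Real.log (b * L / Real.log L) := by
      rw [← Real.log_rpow hL0]
      exact Real.log_le_log (by positivity) e1
    calc L = A * (b * L / Real.log L) * (ρ * Real.log L) := by
          rw [hρ]; field_simp
      _ ≤ A * (b * L / Real.log L) * Real.log (b * L / Real.log L) :=
          mul_le_mul_of_nonneg_left e2 (by positivity)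

/-- the bounds for the moments give the pointwise bounds -/
theorem down {θ c η : ℝ} (hθ : 0 ≤ θ) (hc : 0 < c) (hη : θ < η)
    (h : ∀ A : ℝ, 0 < A → 2 * θ * A < c → Range A c) :
    ∃ C : ℝ, ∀ t : ℝ, 1 ≤ t → ‖riemannZeta (1 / 2 + t * I)‖ ≤ C * t ^ η := by
  have hη0 : 0 < η := by linarith
  obtain ⟨A, hA⟩ : ∃ A : ℝ, A = c / (θ + η) := ⟨_, rfl⟩
  obtain ⟨b, hb⟩ : ∃ b : ℝ, b = (θ + 3 * η) / (2 * c) := ⟨_, rfl⟩
  have hA0 : 0 < A := by rw [hA]; positivity
  have hb0 : 0 < b := by rw [hb]; positivity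
  have hAc : 2 * θ * A < c := by
    rw [hA, mul_div_assoc', div_lt_iff₀ (by positivity)]
    nlinarith
  have hAb : 1 < A * b := by
    rw [hA, hb, div_mul_div_comm, one_lt_div (by positivity)]
    nlinarith
  have hcb : c * b = (θ + 3 * η) / 2 := by
    rw [hb]; field_simp
  obtain ⟨k₀, hk₀⟩ := h A hA0 hAc
  obtain ⟨δ, hδ⟩ : ∃ δ : ℝ, δ = (η - θ) / 8 / (3 / (2 * b)) := ⟨_, rfl⟩
  have hδ0 : 0 < δ := by
    rw [hδ]
    have : 0 < η - θ := by linarith
    positivity
  have E1 := choice A b δ k₀ hA0 hb0 hAb hδ0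
  have E2 : ∀ᶠ L : ℝ in atTop, (1 + η) * Real.log 2 ≤ (η - θ) / 8 * L := by
    have h1 : 0 < (η - θ) / 8 := by linarith
    filter_upwards [eventually_ge_atTop ((1 + η) * Real.log 2 / ((η - θ) / 8))] with L hL
    rw [div_le_iff₀ h1] at hL
    linarith
  have hT : Tendsto (fun t : ℝ => Real.log (2 * t)) atTop atTop :=
    Real.tendsto_log_atTop.comp (tendsto_id.const_mul_atTop (by norm_num))
  obtain ⟨t₀, ht₀⟩ := (((hT.eventually (E1.and E2)).and
    (eventually_ge_atTop (500 : ℝ)))).exists_forall_of_atTop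
  refine ⟨max 1 (9 * (1 + |t₀|)), fun t ht => ?_⟩
  have htη : 1 ≤ t ^ η := Real.one_le_rpow ht hη0.le
  have hmax : (1 : ℝ) ≤ max 1 (9 * (1 + |t₀|)) := le_max_left _ _
  have htr : t ^ η ≤ max 1 (9 * (1 + |t₀|)) * t ^ η :=
    le_mul_of_one_le_left (by positivity) hmax
  rcases lt_or_ge t t₀ with hlt | hge
  · -- bounded `t`
    have h1 := Pool.Agent.H388LH.zeta_growth' (s := (1 / 2 + t * I : ℂ)) (by norm_num) (by norm_num)
    have h2 : ((1 / 2 + t * I : ℂ)).im = t := by simp
    rw [h2, abs_of_pos (by linarith : (0:ℝ) < t)] at h1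
    have h3 : (9 : ℝ) * (1 + t) ≤ max 1 (9 * (1 + |t₀|)) := by
      refine le_trans ?_ (le_max_right _ _)
      have := le_abs_self t₀
      linarith
    calc ‖riemannZeta (1 / 2 + t * I)‖ ≤ 9 * (1 + t) := h1
      _ ≤ max 1 (9 * (1 + |t₀|)) := h3
      _ ≤ max 1 (9 * (1 + |t₀|)) * t ^ η := le_mul_of_one_le_right (by linarith) htη
  · obtain ⟨⟨⟨h7, hlog, hkk, hkp, hLk, hLδ⟩, hL2⟩, h500⟩ := ht₀ t hge
    rcases lt_or_ge ‖riemannZeta (1 / 2 + t * I)‖ 1 with hV | hV
    · exact hV.le.trans (htη.trans htr)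
    refine le_trans ?_ htr
    have ht0 : 0 < t := by linarith
    obtain ⟨L, hL⟩ : ∃ L : ℝ, L = Real.log (2 * t) := ⟨_, rfl⟩
    rw [← hL] at h7 hlog hkk hkp hLk hLδ hL2
    obtain ⟨k, hk⟩ : ∃ k : ℝ, k = b * L / Real.log L := ⟨_, rfl⟩
    rw [← hk] at hkk hkp hLk
    have hL0 : 0 < L := by linarith
    have hlog0 : 0 < Real.log L := by linarith
    obtain ⟨V, hVd⟩ : ∃ V : ℝ, V = ‖riemannZeta (1 / 2 + t * I)‖ := ⟨_, rfl⟩
    -- the moment
    have h1 : 2 * t ≤ k ^ (A * k) := by
      rw [Real.rpow_def_of_pos hkp]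
      have h2 : 2 * t = Real.exp L := by rw [hL, Real.exp_log (by positivity)]
      rw [h2, Real.exp_le_exp]
      linarith
    have h2 := hk₀ k hkk (2 * t) (by linarith) h1
    rw [← hL] at h2
    have h3 := low t k (by linarith) hkp.le hV
    rw [← hVd] at h3 hV ⊢
    have hV0 : 0 < V := by linarith
    have h4 : (V / 2) ^ (2 * k) ≤ 144 * (2 * t) ^ 2 * L ^ (c * k ^ 2) := by
      calc (V / 2) ^ (2 * k) ≤ 288 * t * M k (2 * t) := h3
        _ ≤ 288 * t * (2 * t * L ^ (c * k ^ 2)) := mul_le_mul_of_nonneg_left h2 (by positivity)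
        _ = 144 * (2 * t) ^ 2 * L ^ (c * k ^ 2) := by ring
    have h5 : 2 * k * (Real.log V - Real.log 2) ≤ 3 * L + c * k ^ 2 * Real.log L := by
      have e1 := Real.log_le_log (by positivity) h4
      rw [Real.log_rpow (by positivity), Real.log_div hV0.ne' (by norm_num),
        Real.log_mul (by positivity) (by positivity), Real.log_mul (by norm_num) (by positivity),
        Real.log_pow, ← hL, Real.log_rpow hL0] at e1
      have e2 : Real.log 144 ≤ 7 := by
        rw [Real.log_le_iff_le_exp (by norm_num)]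
        have e3 := Real.add_one_le_exp (7 / 3 : ℝ)
        have e4 : Real.exp 7 = Real.exp (7 / 3) ^ 3 := by
          rw [← Real.exp_nat_mul]; norm_num
        have e5 : (2.7 : ℝ) ≤ Real.exp 1 := by
          have := Real.exp_one_gt_d9; linarith
        have e6 : Real.exp 7 = Real.exp 1 ^ 7 := by
          rw [← Real.exp_nat_mul]; norm_num
        rw [e6]
        calc (144 : ℝ) ≤ 2.7 ^ 7 := by norm_num
          _ ≤ Real.exp 1 ^ 7 := by gcongr
      push_cast at e1
      linarith
    have h6 : Real.log V ≤ Real.log 2 + 3 / (2 * b) * Real.log L + (θ + 3 * η) / 4 * L := by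
      have e1 : Real.log V - Real.log 2 ≤ (3 * L + c * k ^ 2 * Real.log L) / (2 * k) := by
        rw [le_div_iff₀ (by positivity)]
        linarith
      have e2 : (3 * L + c * k ^ 2 * Real.log L) / (2 * k) =
          3 / (2 * b) * Real.log L + (θ + 3 * η) / 4 * L := by
        have e3 : k * Real.log L = b * L := by
          rw [hk]; field_simp
        have e4 : c * k ^ 2 * Real.log L / (2 * k) = (θ + 3 * η) / 4 * L := by
          have : c * k ^ 2 * Real.log L = (c * b) * L * k := by
            calc c * k ^ 2 * Real.log L = c * k * (k * Real.log L) := by ring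
              _ = (c * b) * L * k := by rw [e3]; ring
          rw [this, hcb]
          field_simp
          ring
        have e5 : 3 * L / (2 * k) = 3 / (2 * b) * Real.log L := by
          rw [div_mul_eq_mul_div, div_eq_div_iff (by positivity) (by positivity)]
          calc 3 * L * (2 * b) = 6 * (b * L) := by ring
            _ = 3 * Real.log L * (2 * k) := by rw [← e3]; ring
        rw [add_div, e4, e5]
      linarith
    have h7' : 3 / (2 * b) * Real.log L ≤ (η - θ) / 8 * L := by
      calc 3 / (2 * b) * Real.log L ≤ 3 / (2 * b) * (δ * L) :=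
            mul_le_mul_of_nonneg_left hLδ (by positivity)
        _ = (η - θ) / 8 * L := by rw [hδ]; field_simp
    have h8 : Real.log V ≤ η * Real.log t := by
      have e1 : Real.log t = L - Real.log 2 := by
        rw [hL, Real.log_mul (by norm_num) ht0.ne']; ring
      rw [e1]
      have e2 : (θ + 3 * η) / 4 * L + (η - θ) / 8 * L + (η - θ) / 8 * L = η * L := by ring
      have e3 : Real.log 2 + η * Real.log 2 ≤ (η - θ) / 8 * L := by linarith
      linarith
    rw [← Real.log_rpow ht0] at h8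
    exact (Real.log_le_log_iff hV0 (by positivity)).mp h8

end Pool.Agent.N329.ZM
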