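import Mathlib
import Pool.Agent.N329.ZM.Down

/-!
# From one order to all higher orders
-/

set_option autoImplicit false

open Complex MeasureTheory Filter Topology

namespace Pool.Agent.N329.ZM

/-- the inequality of Q2 for the pair `(k, T)` -/
def Good (k T : ℝ) : Prop := M k T ≤ T * Real.log T ^ (k ^ 2)

lemma line_hasDerivAt (x : ℝ) : HasDerivAt (fun x : ℝ => riemannZeta (1 / 2 + x * I))
    (deriv riemannZeta (1 / 2 + x * I) * I) x := by
  have e1 : HasDerivAt (fun x : ℝ => (1 / 2 + x * I : ℂ)) I x := by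
    have e2 := ((hasDerivAt_id (x : ℂ)).comp_ofReal.mul_const I).const_add (1 / 2 : ℂ)
    simpa using e2
  have e3 := (differentiableAt_riemannZeta (pt_ne x)).hasDerivAt
  have e4 := HasDerivAt.scomp x e3 e1
  rw [smul_eq_mul, mul_comm] at e4
  exact e4

/-- a large value gives a large moment -/
lemma spike (T t k D : ℝ) (hk : 0 ≤ k) (hD : 1 ≤ D) (ht : 1 ≤ t) (htT : t ≤ T)
    (hder : ∀ u : ℝ, t - 1 ≤ u → u ≤ t → ‖deriv riemannZeta (1 / 2 + u * I)‖ ≤ D)
    (hV : 1 ≤ ‖riemannZeta (1 / 2 + t * I)‖) :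
    (‖riemannZeta (1 / 2 + t * I)‖ / 2) ^ (2 * k) ≤ 2 * D * M k T := by
  have hD0 : 0 < D := by linarith
  have hd1 : 1 / (2 * D) ≤ 1 := by
    rw [div_le_one (by positivity)]; linarith
  have hd0 : 0 < 1 / (2 * D) := by positivity
  have hnear : ∀ u : ℝ, t - 1 / (2 * D) ≤ u → u ≤ t →
      ‖riemannZeta (1 / 2 + t * I)‖ / 2 ≤ ‖riemannZeta (1 / 2 + u * I)‖ := by
    intro u hu1 hu2
    have h := norm_image_sub_le_of_norm_deriv_le_segment' (a := u) (b := t)
      (f := fun x : ℝ => riemannZeta (1 / 2 + x * I)) (C := D)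
      (fun x _ => (line_hasDerivAt x).hasDerivWithinAt) (fun x hx => by
        rw [norm_mul, Complex.norm_I, mul_one]
        exact hder x (by linarith [hx.1]) hx.2.le) t (Set.right_mem_Icc.mpr hu2)
    have h3 : D * (t - u) ≤ 1 / 2 := by
      calc D * (t - u) ≤ D * (1 / (2 * D)) := by
            apply mul_le_mul_of_nonneg_left (by linarith) (by positivity)
        _ = 1 / 2 := by field_simp
    have h4 : ‖riemannZeta (1 / 2 + t * I)‖ - ‖riemannZeta (1 / 2 + u * I)‖ ≤
        ‖riemannZeta (1 / 2 + t * I) - riemannZeta (1 / 2 + u * I)‖ := norm_sub_norm_le _ _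
    linarith
  have hcont : Continuous fun t : ℝ => ‖riemannZeta (1 / 2 + t * I)‖ ^ (2 * k) :=
    Z_cont.rpow_const (fun x => Or.inr (by positivity))
  have h1 : ∫ x in (t - 1 / (2 * D))..t, ‖riemannZeta (1 / 2 + x * I)‖ ^ (2 * k) ≤ M k T := by
    unfold M
    apply intervalIntegral.integral_mono_interval (by linarith) (by linarith) htT
    · exact Filter.Eventually.of_forall fun x => by positivity
    · exact hcont.intervalIntegrable _ _
  have h2 : ∫ x in (t - 1 / (2 * D))..t, (‖riemannZeta (1 / 2 + t * I)‖ / 2) ^ (2 * k) ≤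
      ∫ x in (t - 1 / (2 * D))..t, ‖riemannZeta (1 / 2 + x * I)‖ ^ (2 * k) := by
    apply intervalIntegral.integral_mono_on (by linarith) intervalIntegrable_const
      (hcont.intervalIntegrable _ _)
    intro x hx
    exact Real.rpow_le_rpow (by positivity) (hnear x hx.1 hx.2) (by positivity)
  rw [intervalIntegral.integral_const, sub_sub_cancel, smul_eq_mul] at h2
  have h3 := h2.trans h1
  rw [one_div_mul_eq_div, div_le_iff₀ (by positivity)] at h3
  linarith

/-- the logarithm of a large value -/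
lemma spike_log (T t k D : ℝ) (hT : 1000 ≤ T) (hk : 0 < k) (hD : 1 ≤ D) (ht : 1 ≤ t) (htT : t ≤ T)
    (hder : ∀ u : ℝ, t - 1 ≤ u → u ≤ t → ‖deriv riemannZeta (1 / 2 + u * I)‖ ≤ D)
    (hV : 1 ≤ ‖riemannZeta (1 / 2 + t * I)‖) (hg : Good k T) :
    2 * Real.log ‖riemannZeta (1 / 2 + t * I)‖ ≤ 2 * Real.log 2 +
      (Real.log 2 + Real.log D + Real.log T) / k + k * Real.log (Real.log T) := by
  have h1 := spike T t k D hk.le hD ht htT hder hV
  have hD0 : 0 < D := by linarith
  have hT0 : 0 < T := by linarith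
  have hLe : Real.exp 1 ≤ Real.log T :=
    log_one_thousand.trans (Real.log_le_log (by norm_num) hT)
  have hL0 : 0 < Real.log T := (Real.exp_pos 1).trans_le hLe
  have h2 : (‖riemannZeta (1 / 2 + t * I)‖ / 2) ^ (2 * k) ≤
      2 * D * (T * Real.log T ^ (k ^ 2)) :=
    h1.trans (mul_le_mul_of_nonneg_left hg (by positivity))
  obtain ⟨V, hVd⟩ : ∃ V : ℝ, V = ‖riemannZeta (1 / 2 + t * I)‖ := ⟨_, rfl⟩
  rw [← hVd] at h2 hV ⊢
  have hV0 : 0 < V := by linarith
  have h3 := Real.log_le_log (by positivity) h2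
  rw [Real.log_rpow (by positivity), Real.log_div hV0.ne' (by norm_num),
    Real.log_mul (by positivity) (by positivity), Real.log_mul (by norm_num) (by positivity),
    Real.log_mul (by positivity) (by positivity), Real.log_rpow hL0] at h3
  have h4 : 2 * Real.log V - 2 * Real.log 2 ≤ (Real.log 2 + Real.log D + Real.log T +
      k ^ 2 * Real.log (Real.log T)) / k := by
    rw [le_div_iff₀ hk]
    linarith
  have h5 : (Real.log 2 + Real.log D + Real.log T + k ^ 2 * Real.log (Real.log T)) / k =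
      (Real.log 2 + Real.log D + Real.log T) / k + k * Real.log (Real.log T) := by
    rw [add_div]
    congr 1
    field_simp
  linarith

/-- a bound for the maximum carries the inequality from the order `j` to the order `k` -/
lemma carry (T j k : ℝ) (hT : 1000 ≤ T) (hj : 0 < j) (hjk : j ≤ k) (hg : Good j T)
    (hsup : ∀ t : ℝ, 0 ≤ t → t ≤ T → 1 ≤ ‖riemannZeta (1 / 2 + t * I)‖ →
      2 * Real.log ‖riemannZeta (1 / 2 + t * I)‖ ≤ (k + j) * Real.log (Real.log T)) :
    Good k T := by
  have hT0 : 0 < T := by linarith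
  have hLe : Real.exp 1 ≤ Real.log T :=
    log_one_thousand.trans (Real.log_le_log (by norm_num) hT)
  have hL0 : 0 < Real.log T := (Real.exp_pos 1).trans_le hLe
  have hlogL : 1 ≤ Real.log (Real.log T) := by
    rw [Real.le_log_iff_exp_le hL0]; exact hLe
  have hL1 : 1 ≤ Real.log T := by
    have := Real.add_one_le_exp (1 : ℝ)
    linarith
  have hk : 0 < k := by linarith
  have hW : ∀ t : ℝ, 0 ≤ t → t ≤ T →
      ‖riemannZeta (1 / 2 + t * I)‖ ≤ Real.log T ^ ((k + j) / 2) := by
    intro t ht0 htT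
    rcases lt_or_ge ‖riemannZeta (1 / 2 + t * I)‖ 1 with h | h
    · exact h.le.trans (Real.one_le_rpow hL1 (by positivity))
    · have h1 := hsup t ht0 htT h
      rw [← Real.log_le_log_iff (by linarith) (by positivity), Real.log_rpow hL0]
      linarith
  have hcont : ∀ p : ℝ, 0 ≤ p → Continuous fun t : ℝ => ‖riemannZeta (1 / 2 + t * I)‖ ^ p :=
    fun p hp => Z_cont.rpow_const (fun x => Or.inr hp)
  unfold Good at hg ⊢
  have h1 : M k T ≤ Real.log T ^ ((k + j) * (k - j)) * M j T := by
    unfold M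
    rw [← intervalIntegral.integral_const_mul]
    apply intervalIntegral.integral_mono_on hT0.le
      ((hcont _ (by positivity)).intervalIntegrable _ _)
      (((hcont _ (by positivity)).const_mul _).intervalIntegrable _ _)
    intro t ht
    have e1 : ‖riemannZeta (1 / 2 + t * I)‖ ^ (2 * k) =
        ‖riemannZeta (1 / 2 + t * I)‖ ^ (2 * (k - j)) * ‖riemannZeta (1 / 2 + t * I)‖ ^ (2 * j) := by
      rw [← Real.rpow_add_of_nonneg (norm_nonneg _) (by linarith) (by positivity)]
      congr 1
      ring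
    rw [e1]
    apply mul_le_mul_of_nonneg_right _ (by positivity)
    calc ‖riemannZeta (1 / 2 + t * I)‖ ^ (2 * (k - j))
        ≤ (Real.log T ^ ((k + j) / 2)) ^ (2 * (k - j)) :=
          Real.rpow_le_rpow (norm_nonneg _) (hW t ht.1 ht.2) (by linarith)
      _ = Real.log T ^ ((k + j) * (k - j)) := by
          rw [← Real.rpow_mul hL0.le]
          congr 1
          ring
  calc M k T ≤ Real.log T ^ ((k + j) * (k - j)) * M j T := h1
    _ ≤ Real.log T ^ ((k + j) * (k - j)) * (T * Real.log T ^ (j ^ 2)) :=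
        mul_le_mul_of_nonneg_left hg (by positivity)
    _ = T * (Real.log T ^ ((k + j) * (k - j)) * Real.log T ^ (j ^ 2)) := by ring
    _ = T * Real.log T ^ (k ^ 2) := by
        rw [← Real.rpow_add hL0]
        congr 2
        ring

end Pool.Agent.N329.ZM
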