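import Mathlib
import Pool.Agent.N329.ZM.Prop

/-!
# From one order to all higher orders: explicit form
-/

set_option autoImplicit false

open Complex MeasureTheory Filter Topology

namespace Pool.Agent.N329.ZM

lemma six_le_log {T : ℝ} (hT : 1000 ≤ T) : 6 ≤ Real.log T := by
  refine le_trans ?_ (Real.log_le_log (by norm_num) hT)
  have h2 : Real.log 1000 = Real.log 10 * 3 := by
    rw [show (1000 : ℝ) = 10 ^ (3 : ℕ) by norm_num, Real.log_pow]
    push_cast
    ring
  have h3 : (2 : ℝ) ≤ Real.log 10 := by
    rw [Real.le_log_iff_exp_le (by norm_num)]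
    have h4 : Real.exp 2 = Real.exp 1 * Real.exp 1 := by rw [← Real.exp_add]; norm_num
    rw [h4]
    have h1 : Real.exp 1 < 2.7182818286 := Real.exp_one_lt_d9
    nlinarith [Real.exp_pos 1]
  rw [h2]
  linarith

lemma loglog_ge {T : ℝ} (hT : 1000 ≤ T) : 1 ≤ Real.log (Real.log T) := by
  have h6 := six_le_log hT
  rw [Real.le_log_iff_exp_le (by linarith)]
  have h1 : Real.exp 1 < 2.7182818286 := Real.exp_one_lt_d9
  linarith

/-- explicit propagation to higher orders -/
theorem prop1 (T j k : ℝ) (hT : 1000 ≤ T) (hj : 0 < j) (hjk : j ≤ k)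
    (h : 2 * Real.log T + 2 * j * Real.log 2 + Real.log 288 ≤ j * k * Real.log (Real.log T))
    (hg : Good j T) : Good k T := by
  refine carry T j k hT hj hjk hg fun t ht0 htT hV => ?_
  have hT0 : 0 < T := by linarith
  have h6 := six_le_log hT
  have hll := loglog_ge hT
  have h288 : 5 ≤ Real.log 288 := by
    rw [Real.le_log_iff_exp_le (by norm_num)]
    have e6 : Real.exp 5 = Real.exp 1 ^ 5 := by
      rw [← Real.exp_nat_mul]; norm_num
    have h1 : Real.exp 1 < 2.7182818286 := Real.exp_one_lt_d9
    rw [e6]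
    calc Real.exp 1 ^ 5 ≤ 2.7182818286 ^ 5 := by gcongr
      _ ≤ 288 := by norm_num
  have hlog2 : 0 < Real.log 2 := Real.log_pos (by norm_num)
  rcases le_total t 3 with h3 | h3
  · have h1 := Pool.Agent.H388LH.zeta_growth' (s := (1 / 2 + t * I : ℂ)) (by norm_num) (by norm_num)
    have h2 : ((1 / 2 + t * I : ℂ)).im = t := by simp
    rw [h2, abs_of_nonneg ht0] at h1
    have h36 : ‖riemannZeta (1 / 2 + t * I)‖ ≤ 36 := by linarith
    have h4 : Real.log ‖riemannZeta (1 / 2 + t * I)‖ ≤ 4 := by
      rw [Real.log_le_iff_le_exp (by linarith)]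
      have e6 : Real.exp 4 = Real.exp 1 ^ 4 := by
        rw [← Real.exp_nat_mul]; norm_num
      have e5 : (2.7 : ℝ) ≤ Real.exp 1 := by
        have := Real.exp_one_gt_d9; linarith
      rw [e6]
      calc ‖riemannZeta (1 / 2 + t * I)‖ ≤ 36 := h36
        _ ≤ 2.7 ^ 4 := by norm_num
        _ ≤ Real.exp 1 ^ 4 := by gcongr
    have h5 : 16 ≤ j * k * Real.log (Real.log T) := by
      have : 0 < 2 * j * Real.log 2 := by positivity
      linarith
    have h7 : 8 ^ 2 ≤ ((k + j) * Real.log (Real.log T)) ^ 2 := by
      have e1 : 16 ≤ j * k * Real.log (Real.log T) * Real.log (Real.log T) :=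
        h5.trans (le_mul_of_one_le_right (by linarith) hll)
      have e2 : 0 ≤ ((k - j) * Real.log (Real.log T)) ^ 2 := by positivity
      nlinarith
    have hX : 0 ≤ (k + j) * Real.log (Real.log T) := mul_nonneg (by linarith) (by linarith)
    have h8 : 8 ≤ (k + j) * Real.log (Real.log T) :=
      (pow_le_pow_iff_left₀ (by norm_num) hX two_ne_zero).mp h7
    linarith
  · have hD : (1 : ℝ) ≤ 144 * T := by linarith
    have h1 := spike_log T t j (144 * T) hT hj hD (by linarith) htT (fun u hu1 hu2 => by
      refine (deriv_bd (t - 1) u (by linarith) hu1 (by linarith)).trans ?_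
      linarith) hV hg
    rw [Real.log_mul (by norm_num) hT0.ne'] at h1
    have e1 : Real.log 288 = Real.log 2 + Real.log 144 := by
      rw [← Real.log_mul (by norm_num) (by norm_num)]; norm_num
    have h2 : 2 * Real.log 2 + (Real.log 2 + (Real.log 144 + Real.log T) + Real.log T) / j ≤
        k * Real.log (Real.log T) := by
      have e2 : 2 * Real.log 2 + (Real.log 2 + (Real.log 144 + Real.log T) + Real.log T) / j =
          (2 * Real.log T + 2 * j * Real.log 2 + Real.log 288) / j := by
        rw [e1]; field_simp; ring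
      rw [e2, div_le_iff₀ hj]
      linarith
    linarith

end Pool.Agent.N329.ZM
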