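import Mathlib
import Pool.Agent.N329.ZM.Prop1

/-!
# The derivative of zeta near the critical line from the maximum on the line
-/

set_option autoImplicit false

open Complex MeasureTheory Filter Topology Set

namespace Pool.Agent.N329.ZM

/-- maximum principle in a rectangle -/
lemma rect_max {a b c d B : ℝ} (f : ℂ → ℂ) (hab : a < b) (hcd : c < d)
    (hf : ∀ z : ℂ, a ≤ z.re → z.re ≤ b → c ≤ z.im → z.im ≤ d → DifferentiableAt ℂ f z)
    (h : ∀ z : ℂ, a ≤ z.re → z.re ≤ b → c ≤ z.im → z.im ≤ d →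
      (z.re = a ∨ z.re = b ∨ z.im = c ∨ z.im = d) → ‖f z‖ ≤ B)
    (z : ℂ) (h1 : a ≤ z.re) (h2 : z.re ≤ b) (h3 : c ≤ z.im) (h4 : z.im ≤ d) : ‖f z‖ ≤ B := by
  have hcl : closure (Ioo a b ×ℂ Ioo c d) = Icc a b ×ℂ Icc c d := by
    rw [Complex.closure_reProdIm, closure_Ioo hab.ne, closure_Ioo hcd.ne]
  have hmem : z ∈ closure (Ioo a b ×ℂ Ioo c d) := by
    rw [hcl, Complex.mem_reProdIm]
    exact ⟨⟨h1, h2⟩, ⟨h3, h4⟩⟩
  refine Complex.norm_le_of_forall_mem_frontier_norm_le
    ((Metric.isBounded_Ioo a b).reProdIm (Metric.isBounded_Ioo c d)) ?_ ?_ hmem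
  · apply DifferentiableOn.diffContOnCl
    intro w hw
    rw [hcl, Complex.mem_reProdIm] at hw
    exact (hf w hw.1.1 hw.1.2 hw.2.1 hw.2.2).differentiableWithinAt
  · intro w hw
    rw [Complex.frontier_reProdIm, closure_Ioo hab.ne, closure_Ioo hcd.ne,
      frontier_Ioo hab, frontier_Ioo hcd] at hw
    rcases hw with hw | hw
    · rw [Complex.mem_reProdIm] at hw
      obtain ⟨hr, hi⟩ := hw
      simp only [mem_insert_iff, mem_singleton_iff] at hi
      rcases hi with hi | hi
      · exact h w hr.1 hr.2 (by linarith) (by linarith) (Or.inr (Or.inr (Or.inl hi)))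
      · exact h w hr.1 hr.2 (by linarith) (by linarith) (Or.inr (Or.inr (Or.inr hi)))
    · rw [Complex.mem_reProdIm] at hw
      obtain ⟨hr, hi⟩ := hw
      simp only [mem_insert_iff, mem_singleton_iff] at hr
      rcases hr with hr | hr
      · exact h w (by linarith) (by linarith) hi.1 hi.2 (Or.inl hr)
      · exact h w (by linarith) (by linarith) hi.1 hi.2 (Or.inr (Or.inl hr))

/-- one side of the critical line -/
lemma side (T t W a b lam : ℝ) (hT : 1000 ≤ T) (hab : a < b) (ha : 1 / 4 ≤ a) (hb : b ≤ 3 / 4)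
    (ht0 : 0 ≤ t) (htT : t ≤ T) (hW : 0 ≤ W)
    (hline : ∀ u : ℝ, t - Real.log T ≤ u → u ≤ t + Real.log T →
      ‖riemannZeta (1 / 2 + u * I)‖ ≤ W)
    (hpos : ∀ x : ℝ, a ≤ x → x ≤ b → 0 ≤ lam * (x - 1 / 2))
    (hends : ∀ x : ℝ, x = a ∨ x = b → x = 1 / 2 ∨ lam * (x - 1 / 2) = Real.log T)
    (z : ℂ) (h1 : a ≤ z.re) (h2 : z.re ≤ b) (h3 : |z.im - t| ≤ 2) :
    ‖riemannZeta z‖ ≤ Real.exp 4 * (W + 60) * Real.exp (lam * (z.re - 1 / 2)) := by
  have hT0 : 0 < T := by linarith
  have h6 := six_le_log hT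
  have hLT : Real.log T ≤ T := by
    have := Real.log_le_sub_one_of_pos hT0; linarith
  set f : ℂ → ℂ := fun s => riemannZeta s *
    Complex.exp ((s - (1 / 2 + t * I)) ^ 2 - (lam : ℂ) * (s - 1 / 2)) with hfdef
  have hnorm : ∀ s : ℂ, ‖f s‖ = ‖riemannZeta s‖ *
      Real.exp ((s.re - 1 / 2) ^ 2 - (s.im - t) ^ 2 - lam * (s.re - 1 / 2)) := by
    intro s
    rw [hfdef]
    simp only [norm_mul, Complex.norm_exp]
    congr 2
    simp [pow_two, Complex.mul_re]
  have hgrow : ∀ s : ℂ, a ≤ s.re → s.re ≤ b → t - Real.log T ≤ s.im → s.im ≤ t + Real.log T →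
      ‖riemannZeta s‖ ≤ 20 * T := by
    intro s e1 e2 e3 e4
    refine (Pool.Agent.H388LH.zeta_growth' (by linarith) (by linarith)).trans ?_
    have : |s.im| ≤ 2 * T := by
      rw [abs_le]; constructor <;> linarith
    linarith
  have hsq : ∀ s : ℂ, a ≤ s.re → s.re ≤ b → (s.re - 1 / 2) ^ 2 ≤ 1 / 16 := by
    intro s e1 e2
    nlinarith
  have he16 : Real.exp (1 / 16) ≤ 3 := by
    have h1 : Real.exp (1 / 16) ≤ Real.exp 1 := Real.exp_le_exp.mpr (by norm_num)
    have h2 : Real.exp 1 < 2.7182818286 := Real.exp_one_lt_d9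
    linarith
  have hinv : Real.exp (-Real.log T) = T⁻¹ := by
    rw [Real.exp_neg, Real.exp_log hT0]
  have hmax := rect_max (B := W + 60) f hab (c := t - Real.log T) (d := t + Real.log T)
    (by linarith) (fun s e1 e2 e3 e4 => ?_) (fun s e1 e2 e3 e4 hbd => ?_) z h1 h2
    (by linarith [(abs_le.mp h3).1]) (by linarith [(abs_le.mp h3).2])
  · rw [hnorm] at hmax
    have e1 : Real.exp (-(4 + lam * (z.re - 1 / 2))) ≤
        Real.exp ((z.re - 1 / 2) ^ 2 - (z.im - t) ^ 2 - lam * (z.re - 1 / 2)) := by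
      apply Real.exp_le_exp.mpr
      have : (z.im - t) ^ 2 ≤ 4 := by
        have := abs_le.mp h3
        nlinarith [this.1, this.2]
      nlinarith [sq_nonneg (z.re - 1 / 2)]
    have e2 : ‖riemannZeta z‖ * Real.exp (-(4 + lam * (z.re - 1 / 2))) ≤ W + 60 :=
      (mul_le_mul_of_nonneg_left e1 (norm_nonneg _)).trans hmax
    rw [Real.exp_neg, ← div_eq_mul_inv, div_le_iff₀ (Real.exp_pos _)] at e2
    calc ‖riemannZeta z‖ ≤ (W + 60) * Real.exp (4 + lam * (z.re - 1 / 2)) := e2
      _ = Real.exp 4 * (W + 60) * Real.exp (lam * (z.re - 1 / 2)) := by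
          rw [Real.exp_add]; ring
  · have hs1 : s ≠ 1 := by
      rintro rfl
      norm_num at e2
      linarith
    apply DifferentiableAt.mul (differentiableAt_riemannZeta hs1)
    fun_prop
  · rw [hnorm]
    have hp := hpos s.re e1 e2
    have hq := hsq s e1 e2
    have hcase : (s.re = a ∨ s.re = b) ∨ (s.im = t - Real.log T ∨ s.im = t + Real.log T) := by
      tauto
    rcases hcase with hc | hc
    · rcases hends s.re hc with hx | hx
      · have hs : s = 1 / 2 + (s.im : ℂ) * I := by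
          apply Complex.ext <;> simp [hx]
        have e5 : ‖riemannZeta s‖ ≤ W := by
          rw [hs]; exact hline s.im e3 e4
        have e6 : Real.exp ((s.re - 1 / 2) ^ 2 - (s.im - t) ^ 2 - lam * (s.re - 1 / 2)) ≤ 1 := by
          rw [Real.exp_le_one_iff, hx]
          nlinarith [sq_nonneg (s.im - t)]
        calc ‖riemannZeta s‖ *
            Real.exp ((s.re - 1 / 2) ^ 2 - (s.im - t) ^ 2 - lam * (s.re - 1 / 2)) ≤ W * 1 :=
              mul_le_mul e5 e6 (Real.exp_pos _).le hW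
          _ ≤ W + 60 := by linarith
      · have e6 : Real.exp ((s.re - 1 / 2) ^ 2 - (s.im - t) ^ 2 - lam * (s.re - 1 / 2)) ≤
            Real.exp (1 / 16) * T⁻¹ := by
          rw [← hinv, ← Real.exp_add, hx]
          apply Real.exp_le_exp.mpr
          nlinarith [sq_nonneg (s.im - t)]
        calc ‖riemannZeta s‖ *
            Real.exp ((s.re - 1 / 2) ^ 2 - (s.im - t) ^ 2 - lam * (s.re - 1 / 2))
            ≤ (20 * T) * (Real.exp (1 / 16) * T⁻¹) :=
              mul_le_mul (hgrow s e1 e2 e3 e4) e6 (Real.exp_pos _).le (by positivity)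
          _ = 20 * Real.exp (1 / 16) := by field_simp
          _ ≤ W + 60 := by linarith
    · have hH : (s.im - t) ^ 2 = Real.log T ^ 2 := by
        rcases hc with hc | hc <;> rw [hc] <;> ring
      have e6 : Real.exp ((s.re - 1 / 2) ^ 2 - (s.im - t) ^ 2 - lam * (s.re - 1 / 2)) ≤
          Real.exp (1 / 16) * T⁻¹ := by
        rw [← hinv, ← Real.exp_add, hH]
        apply Real.exp_le_exp.mpr
        nlinarith
      calc ‖riemannZeta s‖ *
          Real.exp ((s.re - 1 / 2) ^ 2 - (s.im - t) ^ 2 - lam * (s.re - 1 / 2))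
          ≤ (20 * T) * (Real.exp (1 / 16) * T⁻¹) :=
            mul_le_mul (hgrow s e1 e2 e3 e4) e6 (Real.exp_pos _).le (by positivity)
        _ = 20 * Real.exp (1 / 16) := by field_simp
        _ ≤ W + 60 := by linarith

/-- both sides of the critical line -/
lemma both (T t W r : ℝ) (hT : 1000 ≤ T) (hr1 : r ≤ 1 / 4)
    (ht0 : 0 ≤ t) (htT : t ≤ T) (hW : 0 ≤ W)
    (hline : ∀ u : ℝ, t - Real.log T ≤ u → u ≤ t + Real.log T →
      ‖riemannZeta (1 / 2 + u * I)‖ ≤ W)
    (z : ℂ) (h1 : |z.re - 1 / 2| ≤ r) (h3 : |z.im - t| ≤ 2) :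
    ‖riemannZeta z‖ ≤ Real.exp 4 * (W + 60) * T ^ (4 * r) := by
  have hT0 : 0 < T := by linarith
  have h6 := six_le_log hT
  have hB : 0 ≤ Real.exp 4 * (W + 60) := by positivity
  rcases le_total z.re (1 / 2) with h | h
  · have := side T t W (1 / 4) (1 / 2) (-(4 * Real.log T)) hT (by norm_num) le_rfl (by norm_num)
      ht0 htT hW hline (fun x _ hx => by nlinarith) (fun x hx => by
        rcases hx with hx | hx
        · right; rw [hx]; ring
        · left; exact hx) z (by linarith [(abs_le.mp h1).1]) h h3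
    refine this.trans (mul_le_mul_of_nonneg_left ?_ hB)
    rw [Real.rpow_def_of_pos hT0, Real.exp_le_exp]
    nlinarith [(abs_le.mp h1).1]
  · have := side T t W (1 / 2) (3 / 4) (4 * Real.log T) hT (by norm_num) (by norm_num) le_rfl
      ht0 htT hW hline (fun x hx _ => by nlinarith) (fun x hx => by
        rcases hx with hx | hx
        · left; exact hx
        · right; rw [hx]; ring) z h (by linarith [(abs_le.mp h1).2]) h3
    refine this.trans (mul_le_mul_of_nonneg_left ?_ hB)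
    rw [Real.rpow_def_of_pos hT0, Real.exp_le_exp]
    nlinarith [(abs_le.mp h1).2]

/-- the derivative -/
lemma deriv_line (T t W r : ℝ) (hT : 1000 ≤ T) (hr : 0 < r) (hr1 : r ≤ 1 / 4)
    (ht0 : 0 ≤ t) (htT : t ≤ T) (hW : 0 ≤ W)
    (hline : ∀ u : ℝ, t - Real.log T ≤ u → u ≤ t + Real.log T →
      ‖riemannZeta (1 / 2 + u * I)‖ ≤ W)
    (u : ℝ) (hu1 : t - 1 ≤ u) (hu2 : u ≤ t) :
    ‖deriv riemannZeta (1 / 2 + u * I)‖ ≤ Real.exp 4 * (W + 60) * T ^ (4 * r) / r := by
  apply Complex.norm_deriv_le_of_forall_mem_sphere_norm_le hr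
  · apply DifferentiableOn.diffContOnCl
    intro z hz
    apply DifferentiableAt.differentiableWithinAt
    apply differentiableAt_riemannZeta
    rintro rfl
    rw [closure_ball _ hr.ne', Metric.mem_closedBall, dist_eq_norm] at hz
    have := Complex.abs_re_le_norm (1 - (1 / 2 + u * I : ℂ))
    norm_num at this
    norm_num at hz
    linarith
  · intro z hz
    rw [mem_sphere_iff_norm] at hz
    have hre := Complex.abs_re_le_norm (z - (1 / 2 + u * I : ℂ))
    have him := Complex.abs_im_le_norm (z - (1 / 2 + u * I : ℂ))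
    rw [hz] at hre him
    have e1 : (z - (1 / 2 + u * I : ℂ)).re = z.re - 1 / 2 := by simp
    have e2 : (z - (1 / 2 + u * I : ℂ)).im = z.im - u := by simp
    rw [e1] at hre
    rw [e2] at him
    refine both T t W r hT hr1 ht0 htT hW hline z hre ?_
    have := abs_le.mp him
    rw [abs_le]
    constructor <;> linarith [this.1, this.2]

end Pool.Agent.N329.ZM
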