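import Mathlib
import Pool.Agent.N329.ZM.Rect
import Pool.Agent.N329.ZM.Lim

/-!
# Only the orders up to `(1 + ε) √(log T / log log T)` matter
-/

set_option autoImplicit false
set_option maxHeartbeats 1000000

open Complex MeasureTheory Filter Topology Set

namespace Pool.Agent.N329.ZM

/-- `√(log T / log log T)` -/
noncomputable def ks (T : ℝ) : ℝ := Real.sqrt (Real.log T / Real.log (Real.log T))

/-- `√(log T log log T)` -/
noncomputable def xs (T : ℝ) : ℝ := Real.sqrt (Real.log T * Real.log (Real.log T))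

lemma ks_rel {T : ℝ} (hT : 1000 ≤ T) :
    0 < ks T ∧ 0 < xs T ∧ ks T * Real.log (Real.log T) = xs T ∧ ks T * xs T = Real.log T := by
  have h6 := six_le_log hT
  have hl := loglog_ge hT
  have hL0 : 0 < Real.log T := by linarith
  have hl0 : 0 < Real.log (Real.log T) := by linarith
  have hk : 0 < ks T := Real.sqrt_pos.mpr (by positivity)
  have hx : 0 < xs T := Real.sqrt_pos.mpr (by positivity)
  have h1 : ks T * xs T = Real.log T := by
    unfold ks xs
    rw [← Real.sqrt_mul (by positivity)]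
    have : Real.log T / Real.log (Real.log T) * (Real.log T * Real.log (Real.log T)) =
        Real.log T ^ 2 := by field_simp
    rw [this, Real.sqrt_sq hL0.le]
  have h2 : xs T * xs T = Real.log T * Real.log (Real.log T) :=
    Real.mul_self_sqrt (by positivity)
  refine ⟨hk, hx, ?_, h1⟩
  have h3 : xs T * (ks T * Real.log (Real.log T)) = xs T * xs T := by
    rw [h2, ← h1]; ring
  exact mul_left_cancel₀ hx.ne' h3

lemma ks_mono {T T' : ℝ} (hT : 1000 ≤ T) (h : T ≤ T') : ks T ≤ ks T' := by
  have h6 := six_le_log hT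
  have hT' : 1000 ≤ T' := hT.trans h
  have hl := loglog_ge hT
  have hl' := loglog_ge hT'
  have hLL : Real.log T ≤ Real.log T' := Real.log_le_log (by linarith) h
  have he : Real.exp 1 ≤ Real.log T := by
    have h1 : Real.exp 1 < 2.7182818286 := Real.exp_one_lt_d9
    linarith
  have h1 : Real.log (Real.log T') / Real.log T' ≤ Real.log (Real.log T) / Real.log T :=
    Real.log_div_self_antitoneOn he (he.trans hLL) hLL
  apply Real.sqrt_le_sqrt
  rw [div_le_div_iff₀ (by linarith) (by linarith)] at h1 ⊢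
  linarith

/-- the maximum from one order -/
theorem sharp (ε : ℝ) (hε : 0 < ε) : ∃ T₀ : ℝ, 1000 ≤ T₀ ∧ ∀ T : ℝ, T₀ ≤ T →
    Good ((1 + ε) * ks T) T → Good ((1 + ε) * ks T) (2 * T) →
    ∀ t : ℝ, 0 ≤ t → t ≤ T → 1 ≤ ‖riemannZeta (1 / 2 + t * I)‖ →
      2 * Real.log ‖riemannZeta (1 / 2 + t * I)‖ ≤ (2 + 2 * ε) * xs T := by
  obtain ⟨r, hr⟩ : ∃ r : ℝ, r = min ε 1 / 5 := ⟨_, rfl⟩
  have hr0 : 0 < r := by rw [hr]; have := lt_min hε one_pos; positivity
  have hr1 : r ≤ 1 / 5 := by rw [hr]; have := min_le_right ε 1; linarith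
  have hrε : 5 * r ≤ ε := by rw [hr]; have := min_le_left ε 1; linarith
  obtain ⟨δ, hδ⟩ : ∃ δ : ℝ, δ = 2 * r / (7 + 2 * ε) := ⟨_, rfl⟩
  have hδ0 : 0 < δ := by rw [hδ]; positivity
  obtain ⟨K, hK⟩ : ∃ K : ℝ, K = max (max 4 (10 - Real.log r)) (3 / ε) := ⟨_, rfl⟩
  have hK4 : 4 ≤ K := by rw [hK]; exact (le_max_left _ _).trans (le_max_left _ _)
  have hK10 : 10 - Real.log r ≤ K := by rw [hK]; exact (le_max_right _ _).trans (le_max_left _ _)
  have hK3 : 3 / ε ≤ K := by rw [hK]; exact le_max_right _ _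
  have E1 := (isLittleO_log_rpow_atTop (r := 1) one_pos).bound (c := δ ^ 2) (by positivity)
  have E2 := (isLittleO_log_rpow_atTop (r := 1) one_pos).bound (c := 1 / K ^ 2) (by positivity)
  obtain ⟨T₀, hT₀⟩ := (((Real.tendsto_log_atTop.eventually
    (((E1.and E2).and (eventually_ge_atTop (9 : ℝ))).and (eventually_ge_atTop (4 / r)))).and
    (eventually_ge_atTop (1000 : ℝ)))).exists_forall_of_atTop
  refine ⟨max T₀ 1000, le_max_right _ _, fun T hTT hg hg2 => ?_⟩
  obtain ⟨⟨⟨⟨h1, h2⟩, h9⟩, h4r⟩, hT⟩ := hT₀ T ((le_max_left _ _).trans hTT)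
  obtain ⟨hk0, hx0, hkx, hkxL⟩ := ks_rel hT
  have hll := loglog_ge hT
  have hT0 : 0 < T := by linarith
  obtain ⟨L, hL⟩ : ∃ L : ℝ, L = Real.log T := ⟨_, rfl⟩
  obtain ⟨y, hy⟩ : ∃ y : ℝ, y = ks T := ⟨_, rfl⟩
  obtain ⟨x, hx⟩ : ∃ x : ℝ, x = xs T := ⟨_, rfl⟩
  rw [← hL] at h1 h2 h9 h4r hkx hkxL hll
  rw [← hy] at hk0 hkx hkxL hg hg2
  rw [← hx] at hx0 hkx hkxL ⊢
  have hL0 : 0 < L := by linarith
  have hlog0 : 0 < Real.log L := by linarith
  rw [Real.norm_of_nonneg hlog0.le, Real.rpow_one, Real.norm_of_nonneg hL0.le] at h1 h2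
  -- `x ≤ δ L`
  have hxx : x * x = L * Real.log L := by
    calc x * x = x * (y * Real.log L) := by rw [hkx]
      _ = (y * x) * Real.log L := by ring
      _ = L * Real.log L := by rw [hkxL]
  have hxδ : x ≤ δ * L := by
    have e1 : x ^ 2 ≤ (δ * L) ^ 2 := by
      calc x ^ 2 = L * Real.log L := by rw [pow_two, hxx]
        _ ≤ L * (δ ^ 2 * L) := mul_le_mul_of_nonneg_left h1 hL0.le
        _ = (δ * L) ^ 2 := by ring
    exact (pow_le_pow_iff_left₀ hx0.le (by positivity) two_ne_zero).mp e1
  -- `K ≤ y`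
  have hyK : K ≤ y := by
    have e0 : y * y * Real.log L = L := by rw [mul_assoc, hkx, hkxL]
    have e1 : K ^ 2 ≤ y ^ 2 := by
      rw [one_div_mul_eq_div, le_div_iff₀ (by positivity)] at h2
      have e2 : K ^ 2 * Real.log L ≤ y ^ 2 * Real.log L := by
        rw [pow_two y, e0]; linarith
      exact le_of_mul_le_mul_right e2 hlog0
    exact (pow_le_pow_iff_left₀ (by linarith) hk0.le two_ne_zero).mp e1
  have hyx : y ≤ x := by
    rw [← hkx]; exact le_mul_of_one_le_right hk0.le hll
  have hεx : 3 ≤ ε * x := by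
    have : 3 / ε ≤ x := hK3.trans (hyK.trans hyx)
    rw [div_le_iff₀ hε] at this
    linarith
  have hx4 : 4 ≤ x := hK4.trans (hyK.trans hyx)
  obtain ⟨j, hj⟩ : ∃ j : ℝ, j = (1 + ε) * y := ⟨_, rfl⟩
  rw [← hj] at hg hg2
  have hj0 : 0 < j := by rw [hj]; positivity
  have hjy : y ≤ j := by rw [hj]; nlinarith
  have hjlog : j * Real.log L = (1 + ε) * x := by rw [hj, mul_assoc, hkx]
  have hlog2 : 0 < Real.log 2 := Real.log_pos (by norm_num)
  have hlog2' : Real.log 2 ≤ 1 := by
    have := Real.log_le_sub_one_of_pos (show (0:ℝ) < 2 by norm_num); linarith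
  have hrL : 4 ≤ r * L := by
    rw [div_le_iff₀ hr0] at h4r; linarith
  obtain ⟨W, hW⟩ : ∃ W : ℝ, W = Real.exp (r * L) := ⟨_, rfl⟩
  have hW1 : 1 ≤ W := by rw [hW]; exact Real.one_le_exp (by linarith)
  have hW36 : 36 ≤ W := by
    rw [hW]
    have e6 : Real.exp 4 = Real.exp 1 ^ 4 := by
      rw [← Real.exp_nat_mul]; norm_num
    have e5 : (2.7 : ℝ) ≤ Real.exp 1 := by
      have := Real.exp_one_gt_d9; linarith
    calc (36 : ℝ) ≤ 2.7 ^ 4 := by norm_num
      _ ≤ Real.exp 1 ^ 4 := by gcongr
      _ = Real.exp 4 := e6.symm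
      _ ≤ Real.exp (r * L) := Real.exp_le_exp.mpr hrL
  -- Step A
  have hA : ∀ u : ℝ, 0 ≤ u → u ≤ 2 * T → ‖riemannZeta (1 / 2 + u * I)‖ ≤ W := by
    intro u hu0 hu2
    rcases lt_or_ge ‖riemannZeta (1 / 2 + u * I)‖ 1 with hV | hV
    · linarith
    rcases le_total u 3 with h3 | h3
    · have e1 := Pool.Agent.H388LH.zeta_growth' (s := (1 / 2 + u * I : ℂ)) (by norm_num)
        (by norm_num)
      have e2 : ((1 / 2 + u * I : ℂ)).im = u := by simp
      rw [e2, abs_of_nonneg hu0] at e1
      linarith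
    · have e1 := spike_log (2 * T) u j (288 * T) (by linarith) hj0 (by linarith) (by linarith) hu2
        (fun v hv1 hv2 => by
          refine (deriv_bd (u - 1) v (by linarith) hv1 (by linarith)).trans ?_
          linarith) hV hg2
      have e2 : Real.log (288 * T) ≤ 6 + L := by
        rw [Real.log_mul (by norm_num) hT0.ne', ← hL]
        have : Real.log 288 ≤ 6 := by
          rw [Real.log_le_iff_le_exp (by norm_num)]
          have e6 : Real.exp 6 = Real.exp 1 ^ 6 := by
            rw [← Real.exp_nat_mul]; norm_num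
          have e5 : (2.7 : ℝ) ≤ Real.exp 1 := by
            have := Real.exp_one_gt_d9; linarith
          rw [e6]
          calc (288 : ℝ) ≤ 2.7 ^ 6 := by norm_num
            _ ≤ Real.exp 1 ^ 6 := by gcongr
        linarith
      have e3 : Real.log (2 * T) ≤ 1 + L := by
        rw [Real.log_mul (by norm_num) hT0.ne', ← hL]
        linarith
      have e4 : Real.log (Real.log (2 * T)) ≤ 2 * Real.log L := by
        have e41 : Real.log (2 * T) ≤ L ^ 2 := by nlinarith
        have e42 : 0 < Real.log (2 * T) := Real.log_pos (by linarith)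
        calc Real.log (Real.log (2 * T)) ≤ Real.log (L ^ 2) := Real.log_le_log e42 e41
          _ = 2 * Real.log L := by rw [Real.log_pow]; push_cast; ring
      have e5 : (Real.log 2 + Real.log (288 * T) + Real.log (2 * T)) / j ≤ 3 * x := by
        rw [div_le_iff₀ hj0]
        have f1 : L ≤ x * j := by
          calc L = y * x := hkxL.symm
            _ ≤ j * x := mul_le_mul_of_nonneg_right hjy hx0.le
            _ = x * j := mul_comm _ _
        have f2 : 3 * x * j = 3 * (x * j) := by ring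
        rw [f2]
        linarith
      have e6 : j * Real.log (Real.log (2 * T)) ≤ 2 * ((1 + ε) * x) := by
        rw [← hjlog]
        calc j * Real.log (Real.log (2 * T)) ≤ j * (2 * Real.log L) :=
              mul_le_mul_of_nonneg_left e4 hj0.le
          _ = 2 * (j * Real.log L) := by ring
      have e7 : (7 + 2 * ε) * x ≤ 2 * (r * L) := by
        calc (7 + 2 * ε) * x ≤ (7 + 2 * ε) * (δ * L) :=
              mul_le_mul_of_nonneg_left hxδ (by positivity)
          _ = 2 * (r * L) := by rw [hδ]; field_simp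
      have e9 : (7 + 2 * ε) * x = 7 * x + 2 * (ε * x) := by ring
      have e10 : (1 + ε) * x = x + ε * x := by ring
      have e8 : Real.log ‖riemannZeta (1 / 2 + u * I)‖ ≤ r * L := by
        rw [e9] at e7
        rw [e10] at e6
        linarith
      rw [hW]
      exact (Real.log_le_iff_le_exp (by linarith)).mp e8
  -- the three ranges
  intro t ht0 htT hV
  rcases lt_or_ge t L with htL | htL
  · -- Step C
    have e1 := Pool.Agent.H388LH.zeta_growth' (s := (1 / 2 + t * I : ℂ)) (by norm_num)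
      (by norm_num)
    have e2 : ((1 / 2 + t * I : ℂ)).im = t := by simp
    rw [e2, abs_of_nonneg ht0] at e1
    have e3 : ‖riemannZeta (1 / 2 + t * I)‖ ≤ L ^ 4 := by
      have : 9 * (1 + L) ≤ L ^ 4 := by
        have h81 : 81 ≤ L ^ 2 := by nlinarith
        nlinarith
      linarith
    have e4 : Real.log ‖riemannZeta (1 / 2 + t * I)‖ ≤ 4 * Real.log L := by
      calc Real.log ‖riemannZeta (1 / 2 + t * I)‖ ≤ Real.log (L ^ 4) :=
            Real.log_le_log (by linarith) e3
        _ = 4 * Real.log L := by rw [Real.log_pow]; push_cast; ring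
    have e5 : 4 * Real.log L ≤ x := by
      rw [← hkx]
      exact mul_le_mul_of_nonneg_right (hK4.trans hyK) hlog0.le
    nlinarith
  · -- Step B
    have hTL : L ≤ T := by
      rw [hL]
      have := Real.log_le_sub_one_of_pos hT0; linarith
    obtain ⟨D, hD⟩ : ∃ D : ℝ, D = Real.exp 4 * (W + 60) * T ^ (4 * r) / r := ⟨_, rfl⟩
    have hTr : T ^ (4 * r) = Real.exp (4 * r * L) := by
      rw [Real.rpow_def_of_pos hT0, ← hL]; congr 1; ring
    have hder : ∀ u : ℝ, t - 1 ≤ u → u ≤ t → ‖deriv riemannZeta (1 / 2 + u * I)‖ ≤ D := by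
      intro u hu1 hu2
      rw [hD]
      apply deriv_line T t W r hT hr0 (by linarith) ht0 htT (by linarith) _ u hu1 hu2
      intro v hv1 hv2
      rw [← hL] at hv1 hv2
      exact hA v (by linarith) (by linarith)
    have hDpos : 0 < D := by rw [hD]; positivity
    have hlogD : Real.log D ≤ 9 - Real.log r + 5 * r * L := by
      rw [hD, hTr, Real.log_div (by positivity) hr0.ne', Real.log_mul (by positivity)
        (by positivity), Real.log_mul (by positivity) (by positivity), Real.log_exp, Real.log_exp]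
      have e1 : Real.log (W + 60) ≤ 5 + r * L := by
        have e2 : W + 60 ≤ Real.exp 5 * W := by
          have e6 : Real.exp 5 = Real.exp 1 ^ 5 := by
            rw [← Real.exp_nat_mul]; norm_num
          have e5 : (2.7 : ℝ) ≤ Real.exp 1 := by
            have := Real.exp_one_gt_d9; linarith
          have e7 : (61 : ℝ) ≤ Real.exp 5 := by
            rw [e6]
            calc (61 : ℝ) ≤ 2.7 ^ 5 := by norm_num
              _ ≤ Real.exp 1 ^ 5 := by gcongr
          nlinarith
        calc Real.log (W + 60) ≤ Real.log (Real.exp 5 * W) := Real.log_le_log (by linarith) e2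
          _ = 5 + r * L := by
              rw [Real.log_mul (by positivity) (by linarith), Real.log_exp, hW, Real.log_exp]
      linarith
    have hD1 : 1 ≤ D := by
      have e1 : 1 ≤ Real.exp 4 := Real.one_le_exp (by norm_num)
      have e2 : 1 ≤ T ^ (4 * r) := Real.one_le_rpow (by linarith) (by positivity)
      rw [hD, le_div_iff₀ hr0]
      have e3 : (1 : ℝ) ≤ Real.exp 4 * (W + 60) := by nlinarith
      nlinarith
    have e1 := spike_log T t j D hT hj0 hD1 (by linarith) htT hder hV hg
    rw [← hL] at e1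
    have e2 : (Real.log 2 + Real.log D + L) / j ≤ 1 + x := by
      rw [div_le_iff₀ hj0]
      have f1 : (1 + ε) * L = x * j := by
        rw [hj, ← hkxL]; ring
      have f2 : 5 * r * L ≤ ε * L := mul_le_mul_of_nonneg_right hrε hL0.le
      have f3 : 10 - Real.log r ≤ j := hK10.trans (hyK.trans hjy)
      have f4 : (1 + x) * j = j + x * j := by ring
      have f5 : (1 + ε) * L = L + ε * L := by ring
      rw [f4, ← f1, f5]
      linarith
    rw [hjlog] at e1
    have f6 : (2 + 2 * ε) * x = 2 * x + 2 * (ε * x) := by ring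
    have f7 : (1 + ε) * x = x + ε * x := by ring
    rw [f6]
    rw [f7] at e1
    linarith

end Pool.Agent.N329.ZM
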