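import Mathlib
import Pool.Agent.N329.ZM.Sharp

/-!
# Assembly
-/

set_option autoImplicit false

open Complex MeasureTheory Filter Topology Set

namespace Pool.Agent.N329.ZM

/-- the orders that matter for a given `T`, explicit -/
theorem orders (T : ℝ) (hT : 1000 ≤ T)
    (h : ∀ k : ℝ, 2 ≤ k →
      k ^ 2 * Real.log (Real.log T) ≤ 2 * Real.log T + 2 * k * Real.log 2 + Real.log 288 →
      Good k T) (k : ℝ) (hk : 2 ≤ k) : Good k T := by
  rcases le_or_gt (k ^ 2 * Real.log (Real.log T))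
    (2 * Real.log T + 2 * k * Real.log 2 + Real.log 288) with h1 | h1
  · exact h k hk h1
  have h6 := six_le_log hT
  have hl := loglog_ge hT
  have hlog2 : 0 < Real.log 2 := Real.log_pos (by norm_num)
  have h288 : 0 < Real.log 288 := Real.log_pos (by norm_num)
  have hlL : Real.log (Real.log T) ≤ Real.log T / 2 := by
    have e1 := Real.log_le_sub_one_of_pos (show 0 < Real.log T / 2 by linarith)
    have e2 : Real.log (Real.log T / 2) = Real.log (Real.log T) - Real.log 2 :=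
      Real.log_div (by linarith) (by norm_num)
    have e3 : Real.log 2 ≤ 1 := by
      have := Real.log_le_sub_one_of_pos (show (0:ℝ) < 2 by norm_num); linarith
    linarith
  obtain ⟨l, hl'⟩ : ∃ l : ℝ, l = Real.log (Real.log T) := ⟨_, rfl⟩
  obtain ⟨B, hB⟩ : ∃ B : ℝ, B = 2 * Real.log T + Real.log 288 := ⟨_, rfl⟩
  obtain ⟨a, ha⟩ : ∃ a : ℝ, a = Real.log 2 := ⟨_, rfl⟩
  rw [← hl'] at h1 hl hlL
  rw [← ha] at h1 hlog2
  have hl0 : 0 < l := by linarith
  have hB0 : 0 < B := by linarith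
  have hroot : ∃ j : ℝ, 2 ≤ j ∧ j ≤ k ∧ j ^ 2 * l = B + 2 * j * a := by
    have hcont : ContinuousOn (fun j : ℝ => j ^ 2 * l - (B + 2 * j * a)) (Icc 2 k) := by fun_prop
    have hiv := intermediate_value_Icc hk hcont
    have h0 : (0 : ℝ) ∈ Icc ((fun j : ℝ => j ^ 2 * l - (B + 2 * j * a)) 2)
        ((fun j : ℝ => j ^ 2 * l - (B + 2 * j * a)) k) := by
      constructor
      · simp only
        linarith
      · simp only
        linarith
    obtain ⟨j, hj1, hj2⟩ := hiv h0
    refine ⟨j, hj1.1, hj1.2, ?_⟩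
    simp only at hj2
    linarith
  obtain ⟨j, hj2, hjk, hj⟩ := hroot
  have hgj : Good j T := by
    apply h j hj2
    rw [← hl', ← ha]
    linarith
  apply prop1 T j k hT (by linarith) hjk _ hgj
  rw [← hl', ← ha]
  have : j * j * l ≤ j * k * l := by gcongr
  nlinarith

/-- everything from one order -/
theorem main1 (ε : ℝ) (hε : 0 < ε) : ∃ T₀ : ℝ, 1000 ≤ T₀ ∧ ∀ T : ℝ, T₀ ≤ T →
    Good ((1 + ε) * ks T) T → Good ((1 + ε) * ks T) (2 * T) →
    (∀ t : ℝ, 0 ≤ t → t ≤ T →
      ‖riemannZeta (1 / 2 + t * I)‖ ≤ Real.exp ((1 + ε) * xs T)) ∧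
    ∀ k : ℝ, (1 + ε) * ks T ≤ k → Good k T := by
  obtain ⟨T₀, h0, h⟩ := sharp ε hε
  refine ⟨T₀, h0, fun T hT hg hg2 => ?_⟩
  have hmax := h T hT hg hg2
  have hT1 : 1000 ≤ T := h0.trans hT
  obtain ⟨hk0, hx0, hkx, hkxL⟩ := ks_rel hT1
  have hll := loglog_ge hT1
  refine ⟨fun t ht0 htT => ?_, fun k hk => ?_⟩
  · rcases lt_or_ge ‖riemannZeta (1 / 2 + t * I)‖ 1 with hV | hV
    · exact hV.le.trans (Real.one_le_exp (by positivity))
    · have h1 := hmax t ht0 htT hV
      apply (Real.log_le_iff_le_exp (by linarith)).mp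
      linarith
  · apply carry T ((1 + ε) * ks T) k hT1 (by positivity) hk hg
    intro t ht0 htT hV
    refine (hmax t ht0 htT hV).trans ?_
    calc (2 + 2 * ε) * xs T = (2 * ((1 + ε) * ks T)) * Real.log (Real.log T) := by
          rw [← hkx]; ring
      _ ≤ (k + (1 + ε) * ks T) * Real.log (Real.log T) :=
          mul_le_mul_of_nonneg_right (by linarith) (by linarith)

/-- only the orders up to `(1 + ε) √(log T / log log T)` matter -/
theorem main2 (ε : ℝ) (hε : 0 < ε) : ∃ T₀ : ℝ, 1000 ≤ T₀ ∧ ∀ X : ℝ, T₀ ≤ X →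
    (∀ T : ℝ, X ≤ T → ∀ k : ℝ, 2 ≤ k → k ≤ (1 + ε) * ks T → Good k T) →
    ∀ T : ℝ, X ≤ T → ∀ k : ℝ, 2 ≤ k → Good k T := by
  obtain ⟨T₁, h1, h⟩ := main1 ε hε
  have E1 := (isLittleO_log_rpow_atTop (r := 1) one_pos).bound (c := 1 / 4) (by norm_num)
  obtain ⟨T₂, hT₂⟩ := (Real.tendsto_log_atTop.eventually E1).exists_forall_of_atTop
  refine ⟨max T₁ T₂, h1.trans (le_max_left _ _), fun X hX hyp T hT k hk => ?_⟩
  have hTT₁ : T₁ ≤ T := (le_max_left _ _).trans (hX.trans hT)
  have hTT₂ : T₂ ≤ T := (le_max_right _ _).trans (hX.trans hT)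
  have hT1 : 1000 ≤ T := h1.trans hTT₁
  have h6 := six_le_log hT1
  have hll := loglog_ge hT1
  have e1 := hT₂ T hTT₂
  rw [Real.norm_of_nonneg (by linarith), Real.rpow_one, Real.norm_of_nonneg (by linarith)] at e1
  have h2 : 2 ≤ ks T := by
    unfold ks
    apply Real.le_sqrt_of_sq_le
    rw [le_div_iff₀ (by linarith)]
    linarith
  have h2' : 2 ≤ (1 + ε) * ks T := by nlinarith
  rcases le_total k ((1 + ε) * ks T) with h3 | h3
  · exact hyp T hT k hk h3
  · refine (h T hTT₁ (hyp T hT _ h2' le_rfl) (hyp (2 * T) (by linarith) _ h2' ?_)).2 k h3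
    exact mul_le_mul_of_nonneg_left (ks_mono hT1 (by linarith)) (by linarith)

/-- the Lindelöf exponent and the moments of high order -/
theorem main3 (θ c : ℝ) (hθ : 0 ≤ θ) (hc : 0 < c) :
    Expo θ ↔ ∀ A : ℝ, 0 < A → 2 * θ * A < c → Range A c := by
  constructor
  · intro h A hA hAc
    obtain ⟨η, hη⟩ : ∃ η : ℝ, η = (θ + c / (2 * A)) / 2 := ⟨_, rfl⟩
    have hθc : θ < c / (2 * A) := by
      rw [lt_div_iff₀ (by positivity)]; linarith
    have hη1 : θ < η := by rw [hη]; linarith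
    have hη2 : 2 * η * A < c := by
      have : η < c / (2 * A) := by rw [hη]; linarith
      rw [lt_div_iff₀ (by positivity)] at this
      linarith
    obtain ⟨C, hC⟩ := h η hη1
    refine up (C := 18 + |C|) hA (by linarith) hη2 (by linarith [abs_nonneg C]) ?_
    intro T hT t ht0 htT
    have hTη : 1 ≤ T ^ η := Real.one_le_rpow (by linarith) (by linarith)
    rcases le_total 1 t with h1 | h1
    · calc ‖riemannZeta (1 / 2 + t * I)‖ ≤ C * t ^ η := hC t h1
        _ ≤ |C| * T ^ η := by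
            apply mul_le_mul (le_abs_self C) (Real.rpow_le_rpow ht0 htT (by linarith))
              (by positivity) (abs_nonneg C)
        _ ≤ (18 + |C|) * T ^ η := by nlinarith
    · have e1 := Pool.Agent.H388LH.zeta_growth' (s := (1 / 2 + t * I : ℂ)) (by norm_num)
        (by norm_num)
      have e2 : ((1 / 2 + t * I : ℂ)).im = t := by simp
      rw [e2, abs_of_nonneg ht0] at e1
      nlinarith [abs_nonneg C]
  · intro h η hη
    exact down hθ hc hη h

end Pool.Agent.N329.ZM
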